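import Pool.Agent.X207.SBDim

/-!
# MP_89350a_an : continuous choice of dense linearly independent sequences
-/

open Set Filter Topology TopologicalSpace Metric

namespace Pool.Agent.Results.MP_89350a_an.ContinuousBases

noncomputable section

/-- The set of closed linear subspaces of a normed space `Y`. -/
abbrev ClosedSubspaces (𝕜 Y : Type*) [RCLike 𝕜] [NormedAddCommGroup Y] [NormedSpace 𝕜 Y] :
    Type _ :=
  {X : Submodule 𝕜 Y // IsClosed (X : Set Y)}

instance compactSpace_cantorSet : CompactSpace cantorSet :=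
  isCompact_iff_compactSpace.1 isCompact_cantorSet

/-- The Banach space `C(Δ)` of continuous scalar functions on the Cantor set. -/
abbrev CDelta (𝕜 : Type*) [RCLike 𝕜] : Type _ := C(cantorSet, 𝕜)

/-- `E⁺(U)`: the closed subspaces meeting `U`. -/
def EPlus {𝕜 Y : Type*} [RCLike 𝕜] [NormedAddCommGroup Y] [NormedSpace 𝕜 Y] (U : Set Y) :
    Set (ClosedSubspaces 𝕜 Y) := {X | ((X.1 : Set Y) ∩ U).Nonempty}

/-- Admissible topologies: Polish topologies containing all sets `E⁺(U)`, `U` open, and having a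
subbasis consisting of countable unions of sets `E⁺(U) \ E⁺(V)`, `U`, `V` open. -/
structure Admissible {𝕜 Y : Type*} [RCLike 𝕜] [NormedAddCommGroup Y] [NormedSpace 𝕜 Y]
    (τ : TopologicalSpace (ClosedSubspaces 𝕜 Y)) : Prop where
  polish : @PolishSpace _ τ
  open_EPlus : ∀ U : Set Y, IsOpen U → @IsOpen _ τ (EPlus (𝕜 := 𝕜) U)
  subbasis : ∃ S : Set (Set (ClosedSubspaces 𝕜 Y)), τ = generateFrom S ∧
    ∀ s ∈ S, ∃ U V : ℕ → Set Y, (∀ n, IsOpen (U n) ∧ IsOpen (V n)) ∧
      s = ⋃ n, (EPlus (𝕜 := 𝕜) (U n) \ EPlus (𝕜 := 𝕜) (V n))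

open Pool.Agent.X207.SB

/-- The statement for arbitrary separable Banach spaces. -/
theorem general (𝕜 Y : Type*) [RCLike 𝕜] [NormedAddCommGroup Y] [NormedSpace 𝕜 Y]
    [CompleteSpace Y] [SeparableSpace Y] :
    ∃ τ : TopologicalSpace (ClosedSubspaces 𝕜 Y), Admissible τ ∧
      ∃ h : ℕ → ClosedSubspaces 𝕜 Y → Y, (∀ i, @Continuous _ _ τ _ (h i)) ∧
        (∀ X, closure (range fun i => h i X) = (X.1 : Set Y)) ∧
        ∀ X : ClosedSubspaces 𝕜 Y, ¬ FiniteDimensional 𝕜 X.1 →
          LinearIndependent 𝕜 (fun i => h i X) := by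
  obtain ⟨fs, hfs⟩ := exists_separating (𝕜 := 𝕜) (Y := Y)
  let ι : Type := (ℕ × ℕ) ⊕ (Σ n : ℕ, (Fin n → ℕ) × ℕ)
  let W : ι → Set Y := fun j => match j with
    | Sum.inl p => bb p
    | Sum.inr q => VV fs q.1 q.2.1 q.2.2
  let b : ℕ × ℕ → ι := Sum.inl
  have hb : ∀ p, W (b p) = bb p := fun p => rfl
  have hW : ∀ j, IsOpen (W j) := by
    rintro (p | q)
    · exact isOpen_bb p
    · exact isOpen_VV _ _ _ _
  let τ : TopologicalSpace (ClosedSubspaces 𝕜 Y) := tau 𝕜 W
  have hclopen : ∀ j, IsClopen (Ep (𝕜 := 𝕜) (W j)) := isClopen_tau W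
  have hopen : ∀ U : Set Y, IsOpen U → IsOpen (Ep (𝕜 := 𝕜) U) := fun U hU => isOpen_Ep (b := b) hb hU
  have hZ : LC (ClosedSubspaces 𝕜 Y) := lc_tau 𝕜 W
  refine ⟨τ, ⟨polish_tau (b := b) hW hb, hopen, ?_⟩, ?_⟩
  · -- the subbasis
    refine ⟨{s | ∃ j, s = Ep (𝕜 := 𝕜) (W j) ∨ s = (Ep (𝕜 := 𝕜) (W j))ᶜ}, ?_, ?_⟩
    · apply le_antisymm
      · rw [le_generateFrom_iff_subset_isOpen]
        rintro s ⟨j, rfl | rfl⟩
        · exact (hclopen j).isOpen
        · exact (hclopen j).compl.isOpen
      · -- the induced topology is coarser than the generated one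
        change generateFrom _ ≤ induced (chi W) Pi.topologicalSpace
        rw [← continuous_iff_le_induced]
        let _ : TopologicalSpace (ClosedSubspaces 𝕜 Y) :=
          generateFrom {s | ∃ j, s = Ep (𝕜 := 𝕜) (W j) ∨ s = (Ep (𝕜 := 𝕜) (W j))ᶜ}
        refine continuous_pi fun j => ?_
        rw [continuous_discrete_rng]
        intro v
        cases v with
        | true =>
          have e : (fun X => chi (𝕜 := 𝕜) W X j) ⁻¹' {true} = Ep (𝕜 := 𝕜) (W j) := by
            ext X
            simp only [mem_preimage, mem_singleton_iff]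
            rw [chi_iff]; rfl
          rw [e]
          exact isOpen_generateFrom_of_mem ⟨j, Or.inl rfl⟩
        | false =>
          have e : (fun X => chi (𝕜 := 𝕜) W X j) ⁻¹' {false} = (Ep (𝕜 := 𝕜) (W j))ᶜ := by
            ext X
            simp only [mem_preimage, mem_singleton_iff, mem_compl_iff]
            rw [← Bool.not_eq_true, chi_iff]; rfl
          rw [e]
          exact isOpen_generateFrom_of_mem ⟨j, Or.inr rfl⟩
    · rintro s ⟨j, rfl | rfl⟩
      · refine ⟨fun _ => W j, fun _ => ∅, fun _ => ⟨hW j, isOpen_empty⟩, ?_⟩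
        ext X
        simp [Ep, EPlus]
      · refine ⟨fun _ => univ, fun _ => W j, fun _ => ⟨isOpen_univ, hW j⟩, ?_⟩
        ext X
        have hu : X ∈ EPlus (𝕜 := 𝕜) (univ : Set Y) := ⟨0, X.1.zero_mem, mem_univ _⟩
        simp only [mem_compl_iff, iUnion_const, Set.mem_sdiff, hu, true_and]
        rfl
  · -- the dense selectors
    have hsel : ∀ p : ℕ × ℕ, ∃ g : ClosedSubspaces 𝕜 Y → Y, Continuous g ∧ (∀ X, g X ∈ X.1) ∧
        ∀ X, X ∈ Ep (𝕜 := 𝕜) (bb p) → dist (g X) (dd Y p.1) ≤ 3 * (1 / 2) ^ p.2 := by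
      intro p
      classical
      have hC : IsClopen (Ep (𝕜 := 𝕜) (bb p : Set Y)) := hclopen (b p)
      let f : ClosedSubspaces 𝕜 Y → ℕ := fun X => if X ∈ Ep (𝕜 := 𝕜) (bb p : Set Y) then 0 else 1
      have hf : IsLocallyConstant f := by
        rw [IsLocallyConstant.iff_eventually_eq]
        intro X
        by_cases hX : X ∈ Ep (𝕜 := 𝕜) (bb p : Set Y)
        · filter_upwards [hC.isOpen.mem_nhds hX] with X' hX'
          simp [f, hX, hX']
        · filter_upwards [hC.compl.isOpen.mem_nhds hX] with X' hX'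
          have : X' ∉ Ep (𝕜 := 𝕜) (bb p : Set Y) := hX'
          simp [f, hX, this]
      let p₀ : ClosedSubspaces 𝕜 Y → Y := fun X =>
        (fun (n : ℕ) (_ : ClosedSubspaces 𝕜 Y) => if n = 0 then dd Y p.1 else 0) (f X) X
      have hp₀ : Continuous p₀ := continuous_glue hf
        (G := fun (n : ℕ) (_ : ClosedSubspaces 𝕜 Y) => if n = 0 then dd Y p.1 else 0)
        (fun n => continuous_const)
      have h₀ : ∀ X : ClosedSubspaces 𝕜 Y,
          ((X.1 : Set Y) ∩ ball (p₀ X) ((1 / 2) ^ p.2)).Nonempty := by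
        intro X
        by_cases hX : X ∈ Ep (𝕜 := 𝕜) (bb p : Set Y)
        · have e : p₀ X = dd Y p.1 := by simp [p₀, f, hX]
          rw [e]
          exact hX
        · have e : p₀ X = 0 := by simp [p₀, f, hX]
          rw [e]
          exact ⟨0, X.1.zero_mem, mem_ball_self (by positivity)⟩
      obtain ⟨g, hg1, hg2, hg3⟩ := exists_selection hZ (Φ := fun X => (X.1 : Set Y))
        (fun X => X.2) hopen hp₀ (by positivity : (0 : ℝ) < (1 / 2) ^ p.2) h₀
      refine ⟨g, hg1, hg2, fun X hX => ?_⟩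
      have e : p₀ X = dd Y p.1 := by simp [p₀, f, hX]
      rw [← e]
      exact hg3 X
    choose g hg1 hg2 hg3 using hsel
    have hgd : ∀ X : ClosedSubspaces 𝕜 Y, ∀ y ∈ X.1, ∀ ε > 0, ∃ j : ℕ,
        ‖y - g (Nat.unpair j) X‖ < ε := by
      intro X y hy ε hε
      obtain ⟨m, hm⟩ := exists_pow_lt_of_lt_one (show 0 < ε / 4 by positivity)
        (by norm_num : (1 / 2 : ℝ) < 1)
      obtain ⟨p, hp1, hp2, -⟩ := exists_bb isOpen_univ (mem_univ y) m
      refine ⟨Nat.pair p.1 p.2, ?_⟩
      rw [Nat.unpair_pair]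
      have h1 := hg3 p X ⟨y, hy, hp2⟩
      have h2 : dist y (dd Y p.1) < (1 / 2) ^ p.2 := hp2
      have h3 : (1 / 2 : ℝ) ^ p.2 ≤ (1 / 2) ^ m :=
        pow_le_pow_of_le_one (by norm_num) (by norm_num) hp1
      have h4 := dist_triangle_right y (g p X) (dd Y p.1)
      rw [← dist_eq_norm]
      change dist y (g (p.1, p.2) X) < ε
      change dist y (g p X) < ε
      linarith
    -- the dimension sets
    have hD : ∀ n, IsClopen {X : ClosedSubspaces 𝕜 Y | DimGe n X} := by
      intro n
      refine ⟨?_, isOpen_dimGe n hopen⟩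
      cases n with
      | zero =>
        have : {X : ClosedSubspaces 𝕜 Y | DimGe 0 X} = univ := by
          ext X
          simp only [mem_ofPred_eq, mem_univ, iff_true]
          exact ⟨Fin.elim0, fun i => i.elim0, linearIndependent_empty_type⟩
        rw [this]
        exact isClosed_univ
      | succ n =>
        rw [← isOpen_compl_iff]
        have : {X : ClosedSubspaces 𝕜 Y | DimGe (n + 1) X}ᶜ =
            ⋃ (e : Fin n → ℕ) (K : ℕ), (Ep (𝕜 := 𝕜) (VV fs n e K))ᶜ := by
          ext X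
          simp only [mem_compl_iff, mem_ofPred_eq, mem_iUnion]
          constructor
          · intro h
            exact exists_VV hfs h
          · rintro ⟨e, K, h⟩
            exact not_dimGe_of_VV h
        rw [this]
        refine isOpen_iUnion fun e => isOpen_iUnion fun K => ?_
        exact (hclopen (Sum.inr ⟨n, e, K⟩)).compl.isOpen
    obtain ⟨h, hh1, hh2, hh3, hh4⟩ := exists_independent_selections hZ (fun X => X.1)
      (fun n => {X : ClosedSubspaces 𝕜 Y | DimGe n X}) hD
      (by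
        intro n X hX F hF hFr
        obtain ⟨v, hv, hli⟩ := hX
        by_contra hno
        push Not at hno
        have hli2 : LinearIndependent 𝕜 (fun i : Fin (n + 1) => (⟨v i, hno _ (hv i)⟩ : F)) := by
          apply LinearIndependent.of_comp F.subtype
          exact hli
        have := hli2.fintype_card_le_finrank
        rw [Fintype.card_fin] at this
        omega)
      (fun n X hX => dimGe_mono (Nat.le_succ n) hX)
      (fun j => g (Nat.unpair j)) (fun j => hg1 _) (fun j X => hg2 _ X) hgd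
    refine ⟨h, hh1, ?_, ?_⟩
    · intro X
      apply subset_antisymm
      · apply closure_minimal _ X.2
        rintro _ ⟨i, rfl⟩
        exact hh2 i X
      · intro y hy
        rw [Metric.mem_closure_iff]
        intro ε hε
        obtain ⟨i, hi⟩ := hh3 X y hy ε hε
        exact ⟨h i X, ⟨i, rfl⟩, by rw [dist_eq_norm]; exact hi⟩
    · intro X hX
      apply hh4 X
      intro n
      by_contra hn
      have hn' : ¬ DimGe (n + 1) X := fun h => hn (dimGe_mono (Nat.le_succ n) h)
      exact hX (finite_of_not_dimGe hn').1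

/-- **Main theorem.** There are an admissible Polish topology on the set of closed subspaces of
`C(Δ)` and continuous maps `h i` (`i ∈ ℕ`) into `C(Δ)` such that `(h i X)` is dense in `X` for
every closed subspace `X`, and linearly independent for every infinite-dimensional `X`. -/
theorem result (𝕜 : Type*) [RCLike 𝕜] :
    ∃ τ : TopologicalSpace (ClosedSubspaces 𝕜 (CDelta 𝕜)), Admissible τ ∧
      ∃ h : ℕ → ClosedSubspaces 𝕜 (CDelta 𝕜) → CDelta 𝕜, (∀ i, @Continuous _ _ τ _ (h i)) ∧
        (∀ X, (X.1 : Set (CDelta 𝕜)) = closure (range fun i => h i X)) ∧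
        ∀ X : ClosedSubspaces 𝕜 (CDelta 𝕜), ¬ FiniteDimensional 𝕜 X.1 →
          LinearIndependent 𝕜 (fun i => h i X) := by
  obtain ⟨τ, h1, h, h2, h3, h4⟩ := general 𝕜 (CDelta 𝕜)
  exact ⟨τ, h1, h, h2, fun X => (h3 X).symm, h4⟩

end

end Pool.Agent.Results.MP_89350a_an.ContinuousBases
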